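import Pool.Agent.Run7.h385.PO.Stm3

/-! # Project PO, piece CHR: Christoffel function of the Poisson distribution at `0` -/

set_option autoImplicit false

namespace Pool.Agent.Run7.h779.PO

open Finset

/-- the power series `e^(a X)` -/
noncomputable def Ex (a : ℝ) : PowerSeries ℝ := PowerSeries.rescale a (PowerSeries.exp ℝ)

theorem coeff_Ex (a : ℝ) (n : ℕ) : PowerSeries.coeff n (Ex a) = a ^ n / (n.factorial : ℝ) := by
  rw [Ex, PowerSeries.coeff_rescale, PowerSeries.coeff_exp]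
  simp [div_eq_mul_inv]

theorem Ex_mul_neg (a : ℝ) : Ex a * Ex (-a) = 1 := by
  rw [Ex, Ex, PowerSeries.exp_mul_exp_eq_exp_add, add_neg_cancel]
  ext n
  rw [PowerSeries.coeff_rescale, PowerSeries.coeff_exp, PowerSeries.coeff_one]
  rcases n with _ | n
  · simp
  · simp

theorem prodrule (x s r : ℕ) :
    ((x.choose r : ℕ) : ℝ) * ((x.descFactorial s : ℕ) : ℝ) =
      ∑ p ∈ antidiagonal r, ((s.choose p.1 : ℕ) : ℝ) *
        (((x.descFactorial (s + p.2) : ℕ) : ℝ) / (p.2.factorial : ℝ)) := by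
  rcases le_or_gt s x with h | h
  · obtain ⟨y, rfl⟩ := Nat.exists_eq_add_of_le h
    rw [Nat.add_choose_eq]
    push_cast
    rw [Finset.sum_mul]
    refine Finset.sum_congr rfl fun p _ => ?_
    have h1 : (s + y).descFactorial (s + p.2) =
        y.descFactorial p.2 * (s + y).descFactorial s := by
      have := Nat.descFactorial_mul_descFactorial (n := s + y) (k := s) (m := s + p.2)
        (Nat.le_add_right s p.2)
      rw [← this]
      simp
    rw [h1, Nat.descFactorial_eq_factorial_mul_choose y p.2]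
    have h2 : (p.2.factorial : ℝ) ≠ 0 := by exact_mod_cast p.2.factorial_ne_zero
    push_cast
    field_simp
  · rw [Nat.descFactorial_of_lt h]
    simp only [Nat.cast_zero, mul_zero]
    symm
    refine Finset.sum_eq_zero fun p _ => ?_
    rw [Nat.descFactorial_of_lt (by omega)]
    simp

/-- partial sums of the exponential series -/
noncomputable def Z (lam : ℝ) (m : ℕ) : ℝ := ∑ i ∈ range (m + 1), lam ^ i / (i.factorial : ℝ)

theorem Z_pos {lam : ℝ} (hl : 0 < lam) (m : ℕ) : 1 ≤ Z lam m := by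
  rw [Z, Finset.sum_range_succ']
  have : 0 ≤ ∑ k ∈ range m, lam ^ (k + 1) / ((k + 1).factorial : ℝ) :=
    Finset.sum_nonneg fun i _ => by positivity
  simp
  exact this

theorem mk_Z (lam : ℝ) : PowerSeries.mk (Z lam) = Ex lam * PowerSeries.mk 1 := by
  ext m
  rw [PowerSeries.coeff_mk, PowerSeries.coeff_mul, Z,
    Finset.Nat.sum_antidiagonal_eq_sum_range_succ_mk]
  refine Finset.sum_congr rfl fun i _ => ?_
  simp [coeff_Ex]

/-- the polynomial `Q(x)` -/
noncomputable def Q (K : ℕ) (lam : ℝ) (x : ℕ) : ℝ :=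
  ∑ q ∈ antidiagonal K, Z lam q.1 * ((-1) ^ q.2 * ((x.choose q.2 : ℕ) : ℝ))

theorem Q_zero (K : ℕ) (lam : ℝ) : Q K lam 0 = Z lam K := by
  rw [Q, Finset.sum_eq_single (K, 0)]
  · simp
  · rintro ⟨a, b⟩ hab hne
    rcases b with _ | b
    · exfalso; apply hne
      rw [HasAntidiagonal.mem_antidiagonal] at hab
      simp at hab
      simp [hab]
    · simp
  · intro h; exfalso; apply h; simp

theorem Asum (K s : ℕ) (lam : ℝ) (hs : s ≤ K) :
    ∑ q ∈ antidiagonal K, Z lam q.1 * ((-1) ^ q.2 *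
      ∑ p ∈ antidiagonal q.2, ((s.choose p.1 : ℕ) : ℝ) * (lam ^ p.2 / (p.2.factorial : ℝ)))
      = if s = 0 then 1 else 0 := by
  have hB : ∀ r : ℕ, ∑ p ∈ antidiagonal r, ((s.choose p.1 : ℕ) : ℝ) *
      (lam ^ p.2 / (p.2.factorial : ℝ)) =
      PowerSeries.coeff r ((((1 + Polynomial.X) ^ s : Polynomial ℝ) : PowerSeries ℝ) * Ex lam) := by
    intro r
    rw [PowerSeries.coeff_mul]
    refine Finset.sum_congr rfl fun p _ => ?_
    rw [Polynomial.coeff_coe, Polynomial.coeff_one_add_X_pow, coeff_Ex]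
  have h1 : ∑ q ∈ antidiagonal K, Z lam q.1 * ((-1) ^ q.2 *
      ∑ p ∈ antidiagonal q.2, ((s.choose p.1 : ℕ) : ℝ) * (lam ^ p.2 / (p.2.factorial : ℝ)))
      = PowerSeries.coeff K (PowerSeries.mk (Z lam) * PowerSeries.rescale (-1 : ℝ)
        ((((1 + Polynomial.X) ^ s : Polynomial ℝ) : PowerSeries ℝ) * Ex lam)) := by
    rw [PowerSeries.coeff_mul]
    refine Finset.sum_congr rfl fun q _ => ?_
    rw [PowerSeries.coeff_mk, PowerSeries.coeff_rescale, hB]
  have h2 : PowerSeries.rescale (-1 : ℝ)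
        ((((1 + Polynomial.X) ^ s : Polynomial ℝ) : PowerSeries ℝ) * Ex lam) =
      (1 - PowerSeries.X) ^ s * Ex (-lam) := by
    rw [map_mul]
    congr 1
    · simp only [Polynomial.coe_pow, Polynomial.coe_add, Polynomial.coe_one, Polynomial.coe_X,
        map_pow, map_add, map_one]
      rw [PowerSeries.rescale_neg_one_X, sub_eq_add_neg]
    · ext n
      rw [PowerSeries.coeff_rescale, coeff_Ex, coeff_Ex, neg_eq_neg_one_mul lam, mul_pow]
      ring
  rw [h1, h2, mk_Z]
  have h3 : Ex lam * PowerSeries.mk 1 * ((1 - PowerSeries.X) ^ s * Ex (-lam)) =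
      PowerSeries.mk 1 * (1 - PowerSeries.X) ^ s := by
    calc Ex lam * PowerSeries.mk 1 * ((1 - PowerSeries.X) ^ s * Ex (-lam))
        = (Ex lam * Ex (-lam)) * (PowerSeries.mk 1 * (1 - PowerSeries.X) ^ s) := by ring
      _ = _ := by rw [Ex_mul_neg, one_mul]
  rw [h3]
  rcases s with _ | s
  · simp
  · rw [pow_succ', ← mul_assoc, PowerSeries.mk_one_mul_one_sub_eq_one, one_mul,
      if_neg (Nat.succ_ne_zero s)]
    have h4 : ((1 - PowerSeries.X) ^ s : PowerSeries ℝ) =
        (((1 - Polynomial.X) ^ s : Polynomial ℝ) : PowerSeries ℝ) := by simp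
    rw [h4, Polynomial.coeff_coe]
    apply Polynomial.coeff_eq_zero_of_natDegree_lt
    refine lt_of_le_of_lt (Polynomial.natDegree_pow_le (p := (1 - Polynomial.X : Polynomial ℝ))
      (n := s)) ?_
    have h5 : (1 - Polynomial.X : Polynomial ℝ).natDegree ≤ 1 := by
      refine (Polynomial.natDegree_sub_le _ _).trans ?_
      simp
    calc s * (1 - Polynomial.X : Polynomial ℝ).natDegree ≤ s * 1 := Nat.mul_le_mul_left _ h5
      _ < K := by omega

/-- error constant for `Q(x) (x)_s` -/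
noncomputable def C1 (K : ℕ) (lam : ℝ) (s : ℕ) : ℝ :=
  ∑ q ∈ antidiagonal K, Z lam q.1 * ∑ p ∈ antidiagonal q.2,
    ((s.choose p.1 : ℕ) : ℝ) / (p.2.factorial : ℝ)

theorem C1_nonneg (K : ℕ) {lam : ℝ} (hl : 0 < lam) (s : ℕ) : 0 ≤ C1 K lam s := by
  refine Finset.sum_nonneg fun q _ => mul_nonneg (by linarith [Z_pos hl q.1])
    (Finset.sum_nonneg fun p _ => by positivity)

theorem Fsum {ι : Type} (K : ℕ) {lam ε : ℝ} (hl : 0 < lam) (s : Finset ι) (S : ι → ℕ)
    (h : ∀ k ≤ 2 * K, |∑ i ∈ s, (((S i).descFactorial k : ℕ) : ℝ) - lam ^ k * s.card|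
      ≤ ε * s.card) (a : ℕ) (ha : a ≤ K) :
    |∑ i ∈ s, Q K lam (S i) * (((S i).descFactorial a : ℕ) : ℝ) -
      (if a = 0 then 1 else 0) * s.card| ≤ C1 K lam a * (ε * s.card) := by
  have h1 : ∑ i ∈ s, Q K lam (S i) * (((S i).descFactorial a : ℕ) : ℝ) =
      ∑ q ∈ antidiagonal K, Z lam q.1 * ((-1) ^ q.2 * ∑ p ∈ antidiagonal q.2,
        ((a.choose p.1 : ℕ) : ℝ) / (p.2.factorial : ℝ) *
          ∑ i ∈ s, (((S i).descFactorial (a + p.2) : ℕ) : ℝ)) := by
    have : ∀ i, Q K lam (S i) * (((S i).descFactorial a : ℕ) : ℝ) =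
        ∑ q ∈ antidiagonal K, Z lam q.1 * ((-1) ^ q.2 * ∑ p ∈ antidiagonal q.2,
        ((a.choose p.1 : ℕ) : ℝ) / (p.2.factorial : ℝ) *
          (((S i).descFactorial (a + p.2) : ℕ) : ℝ)) := by
      intro i
      rw [Q, Finset.sum_mul]
      refine Finset.sum_congr rfl fun q _ => ?_
      rw [mul_assoc, mul_assoc, prodrule]
      congr 2
      refine Finset.sum_congr rfl fun p _ => ?_
      ring
    rw [Finset.sum_congr rfl fun i _ => this i, Finset.sum_comm]
    refine Finset.sum_congr rfl fun q _ => ?_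
    rw [← Finset.mul_sum, ← Finset.mul_sum, Finset.sum_comm]
    congr 2
    refine Finset.sum_congr rfl fun p _ => ?_
    rw [← Finset.mul_sum]
  have h2 : (if a = 0 then (1 : ℝ) else 0) * s.card * lam ^ a =
      ∑ q ∈ antidiagonal K, Z lam q.1 * ((-1) ^ q.2 * ∑ p ∈ antidiagonal q.2,
        ((a.choose p.1 : ℕ) : ℝ) / (p.2.factorial : ℝ) * (lam ^ (a + p.2) * s.card)) := by
    rw [← Asum K a lam ha, Finset.sum_mul, Finset.sum_mul]
    refine Finset.sum_congr rfl fun q _ => ?_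
    rw [mul_assoc, mul_assoc, mul_assoc, Finset.sum_mul]
    congr 2
    refine Finset.sum_congr rfl fun p _ => ?_
    rw [pow_add]
    ring
  have h3 : (if a = 0 then (1 : ℝ) else 0) * s.card =
      (if a = 0 then (1 : ℝ) else 0) * s.card * lam ^ a := by
    rcases a with _ | a
    · simp
    · simp
  rw [h3, h1, h2, ← Finset.sum_sub_distrib, C1, Finset.sum_mul]
  refine (Finset.abs_sum_le_sum_abs _ _).trans (Finset.sum_le_sum fun q hq => ?_)
  rw [HasAntidiagonal.mem_antidiagonal] at hq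
  rw [← mul_sub, ← mul_sub, ← Finset.sum_sub_distrib, abs_mul, abs_mul, abs_pow, abs_neg, abs_one,
    one_pow, one_mul, abs_of_nonneg (by linarith [Z_pos hl q.1]), mul_assoc]
  refine mul_le_mul_of_nonneg_left ?_ (by linarith [Z_pos hl q.1])
  rw [Finset.sum_mul]
  refine (Finset.abs_sum_le_sum_abs _ _).trans (Finset.sum_le_sum fun p hp => ?_)
  rw [HasAntidiagonal.mem_antidiagonal] at hp
  rw [← mul_sub, abs_mul, abs_of_nonneg (by positivity)]
  exact mul_le_mul_of_nonneg_left (h _ (by omega)) (by positivity)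

/-- total error constant -/
noncomputable def C2 (K : ℕ) (lam : ℝ) : ℝ :=
  ∑ q ∈ antidiagonal K, Z lam q.1 / (q.2.factorial : ℝ) * C1 K lam q.2

theorem C2_nonneg (K : ℕ) {lam : ℝ} (hl : 0 < lam) : 0 ≤ C2 K lam :=
  Finset.sum_nonneg fun q _ => mul_nonneg
    (div_nonneg (by linarith [Z_pos hl q.1]) (by positivity)) (C1_nonneg K hl _)

theorem Q2sum {ι : Type} (K : ℕ) {lam ε : ℝ} (hl : 0 < lam) (s : Finset ι) (S : ι → ℕ)
    (h : ∀ k ≤ 2 * K, |∑ i ∈ s, (((S i).descFactorial k : ℕ) : ℝ) - lam ^ k * s.card|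
      ≤ ε * s.card) :
    |∑ i ∈ s, Q K lam (S i) ^ 2 - Z lam K * s.card| ≤ C2 K lam * (ε * s.card) := by
  have h1 : ∑ i ∈ s, Q K lam (S i) ^ 2 =
      ∑ q ∈ antidiagonal K, Z lam q.1 * ((-1) ^ q.2 / (q.2.factorial : ℝ)) *
        ∑ i ∈ s, Q K lam (S i) * (((S i).descFactorial q.2 : ℕ) : ℝ) := by
    have : ∀ i, Q K lam (S i) ^ 2 = ∑ q ∈ antidiagonal K,
        Z lam q.1 * ((-1) ^ q.2 / (q.2.factorial : ℝ)) *
          (Q K lam (S i) * (((S i).descFactorial q.2 : ℕ) : ℝ)) := by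
      intro i
      rw [sq]
      conv_lhs => rw [Q, Finset.sum_mul]
      refine Finset.sum_congr rfl fun q _ => ?_
      rw [Nat.descFactorial_eq_factorial_mul_choose]
      have h2 : (q.2.factorial : ℝ) ≠ 0 := by exact_mod_cast q.2.factorial_ne_zero
      push_cast
      change Z lam q.1 * ((-1) ^ q.2 * ((S i).choose q.2 : ℝ)) * Q K lam (S i) = _
      field_simp
    rw [Finset.sum_congr rfl fun i _ => this i, Finset.sum_comm]
    refine Finset.sum_congr rfl fun q _ => ?_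
    rw [← Finset.mul_sum]
  have h2 : Z lam K * s.card =
      ∑ q ∈ antidiagonal K, Z lam q.1 * ((-1) ^ q.2 / (q.2.factorial : ℝ)) *
        ((if q.2 = 0 then (1 : ℝ) else 0) * s.card) := by
    rw [Finset.sum_eq_single (K, 0)]
    · simp
    · rintro ⟨a, b⟩ hab hne
      rcases b with _ | b
      · exfalso; apply hne
        rw [HasAntidiagonal.mem_antidiagonal] at hab
        simp at hab
        simp [hab]
      · simp
    · intro h; exfalso; apply h; simp
  rw [h1, h2, ← Finset.sum_sub_distrib, C2, Finset.sum_mul]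
  refine (Finset.abs_sum_le_sum_abs _ _).trans (Finset.sum_le_sum fun q hq => ?_)
  rw [HasAntidiagonal.mem_antidiagonal] at hq
  rw [← mul_sub, abs_mul, mul_assoc (Z lam q.1 / (q.2.factorial : ℝ))]
  have h3 : |Z lam q.1 * ((-1) ^ q.2 / (q.2.factorial : ℝ))| =
      Z lam q.1 / (q.2.factorial : ℝ) := by
    rw [abs_mul, abs_div, abs_pow, abs_neg, abs_one, one_pow,
      abs_of_nonneg (by linarith [Z_pos hl q.1]), abs_of_nonneg (by positivity)]
    ring
  rw [h3]
  exact mul_le_mul_of_nonneg_left (Fsum K hl s S h q.2 (by omega))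
    (div_nonneg (by linarith [Z_pos hl q.1]) (by positivity))

theorem t_CHR : Pool.Agent.Run7.h385.PO.S_CHR := by
  intro K lam η hl hη
  have hC := C2_nonneg K hl
  have hC1 : 0 < C2 K lam + 1 := by linarith
  refine ⟨η / (C2 K lam + 1), div_pos hη hC1, fun ι s S h => ?_⟩
  have hZ := Z_pos hl K
  have hZ0 : 0 < Z lam K := by linarith
  have h1 := Q2sum K hl s S h
  have h2 : ∑ i ∈ s, Q K lam (S i) ^ 2 ≤ Z lam K * s.card + η * s.card := by
    have h3 : C2 K lam * (η / (C2 K lam + 1) * s.card) ≤ η * s.card := by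
      rw [← mul_assoc]
      refine mul_le_mul_of_nonneg_right ?_ (by positivity)
      rw [mul_div_assoc', div_le_iff₀ hC1]
      nlinarith
    have := (abs_le.mp h1).2
    linarith
  have h4 : ((s.filter (fun i => S i = 0)).card : ℝ) * Z lam K ^ 2 ≤
      ∑ i ∈ s, Q K lam (S i) ^ 2 := by
    rw [← nsmul_eq_mul, ← Finset.sum_const]
    calc ∑ i ∈ s.filter (fun i => S i = 0), Z lam K ^ 2
        = ∑ i ∈ s.filter (fun i => S i = 0), Q K lam (S i) ^ 2 := by
          refine Finset.sum_congr rfl fun i hi => ?_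
          rw [(Finset.mem_filter.mp hi).2, Q_zero]
      _ ≤ _ := Finset.sum_le_sum_of_subset_of_nonneg (Finset.filter_subset _ _)
          fun i _ _ => sq_nonneg _
  change _ ≤ (1 / Z lam K + η) * s.card
  have h5 : ((s.filter (fun i => S i = 0)).card : ℝ) ≤
      (Z lam K * s.card + η * s.card) / Z lam K ^ 2 := by
    rw [le_div_iff₀ (by positivity)]
    exact h4.trans h2
  refine h5.trans ?_
  rw [div_le_iff₀ (by positivity)]
  have h6 : (1 / Z lam K + η) * s.card * Z lam K ^ 2 =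
      Z lam K * s.card + η * s.card * Z lam K ^ 2 := by
    field_simp
  rw [h6]
  have h7 : (1 : ℝ) ≤ Z lam K ^ 2 := one_le_pow₀ hZ
  have h8 : 0 ≤ η * s.card := by positivity
  nlinarith

end Pool.Agent.Run7.h779.PO
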